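import Mathlib
import Pool.Graph.R_seed8.W719.AEC.Defs
import Pool.Graph.R_seed8.W719.AEC.NoExp

/-!
# SU(2) invariants of the mapping tori of bounding pair maps: definitions and statements of the pieces
-/

set_option autoImplicit false

open Finset Filter

namespace H562BP

open W719AEC (PlumbingGraph)

/-- Two vertices of genus g₁ and g₂ and Euler number 0, joined by two edges of opposite signs. -/
def bp (g₁ g₂ : ℕ) : PlumbingGraph 2 2 where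
  genus := ![g₁, g₂]
  euler := ![0, 0]
  src := ![0, 0]
  tgt := ![1, 1]
  positive := ![true, false]

/-- The double sum. -/
noncomputable def A (g₁ g₂ r : ℕ) : ℝ :=
  ∑ a ∈ Ico 1 r, ∑ b ∈ Ico 1 r, Real.sin (Real.pi * ((a : ℝ) * b) / r) ^ 2 /
    (Real.sin (Real.pi * a / r) ^ (2 * g₁) * Real.sin (Real.pi * b / r) ^ (2 * g₂))

/-- (Z) The SU(2) invariant is (r/2)^(g₁+g₂-1) times the double sum.
Proof: labels 2 r is the image of Ico 1 r under a ↦ ![0, a]; |Smat 2 r ![0,a] ![0,b]| :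
I / (sqrt 2 sqrt r) exp (π i a b / r) (exp (-2 π i a b / r) - 1) = sqrt (2 / r) sin (π a b / r), which is real;
triv 2 = ![0, 1]; the degrees are 2 (W719AEC.deg_zero for the graph doubleEdge is by decide); the sum over
Fintype.piFinset over Fin 2 is a double sum (W719AEC.sum_piFinset_two). -/
def S_Z : Prop := ∀ g₁ g₂ r : ℕ, 1 ≤ g₁ → 1 ≤ g₂ → 1 ≤ r →
  (bp g₁ g₂).Z 2 r = ((((r : ℝ) / 2) ^ (g₁ + g₂ - 1) * A g₁ g₂ r : ℝ) : ℂ)

/-- (PS) Power sums: with z = ζ(-s) for s ≤ -2.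
Proof: s ≤ -2: tsum minus the tail ∑_{a > h} a^s = O(h^(s+1)), h = (r-1)/2 ≥ r/4 for r ≥ 3 (small r into the
constant); s = -1: harmonic numbers (Mathlib: log (n+1) ≤ harmonic n ≤ 1 + log n) and
|log h - log r| ≤ log 4 for r ≥ 3; s ≥ 0: every term is at most r^s. -/
def S_PS : Prop := ∀ s : ℤ, ∃ z K : ℝ, ∀ r : ℕ, 1 ≤ r →
  |∑ a ∈ Icc 1 ((r - 1) / 2), (a : ℝ) ^ s -
    (if s ≤ -2 then z else if s = -1 then Real.log r else 0)| ≤ K * (r : ℝ) ^ (s + 1)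

/-- (NE) No expansion: if Z r = (r/2)^κ (P(r) + c r^M log r + O(r^M)) with c ≠ 0 then for no phases ω k of
absolute value 1 the sequence ω k Z(k+2) has an expansion.
Proof: let A r be the bracket. If natDegree P ≤ M, then |Z r| ≤ C r^(κ+M) (1 + log r) and |Z r| / r^(κ+M) → ∞:
W719AEC.not_hasExpansion applies. If D = natDegree P > M: suppose ω Z has an expansion. Exactly as in the proof of
W719AEC.not_hasExpansion, for every s there are finite families with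
‖ω(n-2) Z(n) - ∑_{i ∈ T} β i n^(e i) (z i)^n‖ ≤ C n^s for large n (choose L large). Take s = M - κ - 1... any
s ≤ κ + M - (κ + D) = M - D suffices: then Z(n)^2 = |∑|^2 + O(n^(2κ+D+M)), as |Z n| = O(n^(κ+D)) and
| |u|^2 - |v|^2 | ≤ |u - v| (2 |u| + |u - v|). The square |∑|^2 = ∑_{i,j} β i conj(β j) n^(e i + e j)
(z i conj(z j))^n is a finite sum of the same kind, and (n/2)^(2κ) P(n)^2 too (phases 1). Apply
W719AEC.bounded_of_expansion with B = 1 (or B = 2) and s = 2κ + D + M to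
F n = Z(n)^2 - (n/2)^(2κ) P(n)^2 = (n/2)^(2κ) (2 P(n) c n^M log n + O(n^(D+M))): F n = O(n^s) contradicts
|F n| / n^s → ∞ (|P(n)| ≥ c' n^D for large n). -/
def S_NE : Prop := ∀ (κ M : ℕ) (P : Polynomial ℝ) (c K : ℝ) (Z : ℕ → ℝ), c ≠ 0 →
  (∀ r : ℕ, 1 ≤ r → |Z r - ((r : ℝ) / 2) ^ κ * (P.eval (r : ℝ) + c * ((r : ℝ) ^ M * Real.log r))| ≤
    K * ((r : ℝ) ^ κ * (r : ℝ) ^ M)) →
  ∀ ω : ℕ → ℂ, (∀ k, ‖ω k‖ = 1) →
    ¬ H524R3.HasExpansion 2 (fun k => ω k * ((Z (k + 2) : ℝ) : ℂ))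

/-- (LA) Laurent expansion with bounded remainder and positive coefficients. -/
def S_LA : Prop := ∀ G : ℕ, 1 ≤ G → ∃ (γ : ℕ → ℝ) (K : ℝ), (∀ j ∈ Icc 1 G, 0 < γ j) ∧
  ∀ x : ℝ, 0 < x → x ≤ Real.pi / 2 →
    |1 / Real.sin x ^ (2 * G) - ∑ j ∈ Icc 1 G, γ j / x ^ (2 * j)| ≤ K

/-- the inner sum -/
noncomputable def Q (g r a : ℕ) : ℝ :=
  ∑ b ∈ Ico 1 r, Real.sin (Real.pi * ((a : ℝ) * b) / r) ^ 2 / Real.sin (Real.pi * b / r) ^ (2 * g)

/-- (QS) Structure of the inner sum: for 0 ≤ a ≤ r it is an even polynomial in a with zero constant term plus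
r times an odd polynomial in a with constant coefficients. -/
def S_QS : Prop := ∀ g : ℕ, 1 ≤ g → ∃ (e : ℕ → Polynomial ℝ) (o : ℕ → ℝ),
  (∀ i ∈ Icc 1 g, (e i).natDegree ≤ 2 * g - 2 * i) ∧ o g ≠ 0 ∧
  ∀ r a : ℕ, 1 ≤ r → a ≤ r → Q g r a = ∑ i ∈ Icc 1 g, (e i).eval (r : ℝ) * (a : ℝ) ^ (2 * i) +
    r * ∑ i ∈ Icc 1 g, o i * (a : ℝ) ^ (2 * i - 1)

/-- (AS) The asymptotics of the double sum. -/
def S_AS : Prop := ∀ g G : ℕ, 1 ≤ g → g ≤ G → ∃ (P : Polynomial ℝ) (c K : ℝ), c ≠ 0 ∧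
  ∀ r : ℕ, 1 ≤ r → |A G g r - (P.eval (r : ℝ) + c * ((r : ℝ) ^ (2 * g + 1) * Real.log r))| ≤
    K * (r : ℝ) ^ (2 * g + 1)

end H562BP
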