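import Mathlib
import Pool.Agent.H562.BP.Stm

set_option autoImplicit false

open Finset Polynomial

namespace H562BP

/-- f(r) = P(r) + c r^M log r + O(r^M). -/
def AP (M : ℕ) (c : ℝ) (f : ℕ → ℝ) : Prop := ∃ (P : Polynomial ℝ) (K : ℝ), 0 ≤ K ∧ ∀ r : ℕ, 1 ≤ r →
  |f r - (P.eval (r : ℝ) + c * ((r : ℝ) ^ M * Real.log r))| ≤ K * (r : ℝ) ^ M

lemma AP.add {M : ℕ} {c c' : ℝ} {f f' : ℕ → ℝ} (h : AP M c f) (h' : AP M c' f') :
    AP M (c + c') (fun r => f r + f' r) := by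
  obtain ⟨P, K, hK, h⟩ := h
  obtain ⟨P', K', hK', h'⟩ := h'
  refine ⟨P + P', K + K', by positivity, fun r hr => ?_⟩
  have h1 := h r hr
  have h2 := h' r hr
  have e1 : f r + f' r - ((P + P').eval (r : ℝ) + (c + c') * ((r : ℝ) ^ M * Real.log r)) =
      (f r - (P.eval (r : ℝ) + c * ((r : ℝ) ^ M * Real.log r))) +
        (f' r - (P'.eval (r : ℝ) + c' * ((r : ℝ) ^ M * Real.log r))) := by
    rw [eval_add]; ring
  rw [e1, add_mul]
  exact (abs_add_le _ _).trans (add_le_add h1 h2)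

lemma AP.smul {M : ℕ} {c : ℝ} {f : ℕ → ℝ} (k : ℝ) (h : AP M c f) :
    AP M (k * c) (fun r => k * f r) := by
  obtain ⟨P, K, hK, h⟩ := h
  refine ⟨C k * P, |k| * K, by positivity, fun r hr => ?_⟩
  have e1 : k * f r - ((C k * P).eval (r : ℝ) + k * c * ((r : ℝ) ^ M * Real.log r)) =
      k * (f r - (P.eval (r : ℝ) + c * ((r : ℝ) ^ M * Real.log r))) := by
    rw [eval_mul, eval_C]; ring
  rw [e1, abs_mul, mul_assoc]
  exact mul_le_mul_of_nonneg_left (h r hr) (abs_nonneg k)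

lemma AP.of_bound {M : ℕ} {f : ℕ → ℝ} (K : ℝ) (h : ∀ r : ℕ, 1 ≤ r → |f r| ≤ K * (r : ℝ) ^ M) :
    AP M 0 f := by
  refine ⟨0, |K|, abs_nonneg K, fun r hr => ?_⟩
  simp only [eval_zero, zero_mul, add_zero, sub_zero]
  exact (h r hr).trans (mul_le_mul_of_nonneg_right (le_abs_self K) (by positivity))

lemma AP.congr {M : ℕ} {c : ℝ} {f f' : ℕ → ℝ} (h : AP M c f) (he : ∀ r : ℕ, 1 ≤ r → f' r = f r) :
    AP M c f' := by
  obtain ⟨P, K, hK, h⟩ := h
  refine ⟨P, K, hK, fun r hr => ?_⟩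
  rw [he r hr]; exact h r hr

lemma AP.sum {M : ℕ} {ι : Type} (s : Finset ι) (c : ι → ℝ) (f : ι → ℕ → ℝ)
    (h : ∀ i ∈ s, AP M (c i) (f i)) : AP M (∑ i ∈ s, c i) (fun r => ∑ i ∈ s, f i r) := by
  classical
  induction s using Finset.induction_on with
  | empty => simpa using AP.of_bound (M := M) (f := fun _ => 0) 0 (by simp)
  | insert a s ha ih =>
    have h1 := (h a (Finset.mem_insert_self a s)).add
      (ih fun i hi => h i (Finset.mem_insert_of_mem hi))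
    rw [Finset.sum_insert ha]
    exact h1.congr fun r _ => Finset.sum_insert ha

lemma poly_bound (p : Polynomial ℝ) (m : ℕ) (h : p.natDegree ≤ m) :
    ∃ K : ℝ, 0 ≤ K ∧ ∀ r : ℕ, 1 ≤ r → |p.eval (r : ℝ)| ≤ K * (r : ℝ) ^ m := by
  refine ⟨∑ i ∈ range (m + 1), |p.coeff i|, Finset.sum_nonneg fun _ _ => abs_nonneg _, fun r hr => ?_⟩
  have hr' : (1 : ℝ) ≤ r := by exact_mod_cast hr
  rw [eval_eq_sum_range' (lt_of_le_of_lt h (Nat.lt_succ_self m)), Finset.sum_mul]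
  refine (Finset.abs_sum_le_sum_abs _ _).trans (Finset.sum_le_sum fun i hi => ?_)
  rw [mem_range] at hi
  rw [abs_mul, abs_of_nonneg (by positivity : (0 : ℝ) ≤ (r : ℝ) ^ i)]
  exact mul_le_mul_of_nonneg_left (pow_le_pow_right₀ hr' (by omega)) (abs_nonneg _)

lemma half_sum (f : ℕ → ℝ) (r : ℕ) (hr : 1 ≤ r) (hf : ∀ a ∈ Ico 1 r, f (r - a) = f a) :
    ∑ a ∈ Ico 1 r, f a = 2 * ∑ a ∈ Icc 1 ((r - 1) / 2), f a + (if r % 2 = 0 then f (r / 2) else 0) := by
  rcases Nat.even_or_odd' r with ⟨k, hk | hk⟩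
  · obtain ⟨h, rfl⟩ : ∃ h, k = h + 1 := ⟨k - 1, by omega⟩
    have e0 : (r - 1) / 2 = h := by omega
    have e1 : r / 2 = h + 1 := by omega
    have e2 : r % 2 = 0 := by omega
    rw [e0, e1, if_pos e2]
    have h1 : Icc 1 h = Ico 1 (h + 1) := by ext x; simp only [mem_Icc, mem_Ico]; omega
    rw [h1]
    have h2 := Finset.sum_Ico_consecutive f (show 1 ≤ h + 1 by omega) (show h + 1 ≤ r by omega)
    have h3 := Finset.sum_eq_sum_Ico_succ_bot (show h + 1 < r by omega) f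
    have h4 := Finset.sum_Ico_reflect f 1 (show h + 1 ≤ r + 1 by omega)
    have h5 : ∑ j ∈ Ico 1 (h + 1), f (r - j) = ∑ j ∈ Ico 1 (h + 1), f j := by
      refine Finset.sum_congr rfl fun j hj => hf j ?_
      rw [mem_Ico] at hj ⊢; omega
    have h6 : r + 1 - (h + 1) = h + 1 + 1 := by omega
    have h7 : r + 1 - 1 = r := by omega
    rw [h6, h7, h5] at h4
    rw [← h2, h3, ← h4]
    ring
  · have e0 : (r - 1) / 2 = k := by omega
    have e2 : ¬ r % 2 = 0 := by omega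
    rw [e0, if_neg e2]
    have h1 : Icc 1 k = Ico 1 (k + 1) := by ext x; simp only [mem_Icc, mem_Ico]; omega
    rw [h1]
    have h2 := Finset.sum_Ico_consecutive f (show 1 ≤ k + 1 by omega) (show k + 1 ≤ r by omega)
    have h4 := Finset.sum_Ico_reflect f 1 (show k + 1 ≤ r + 1 by omega)
    have h5 : ∑ j ∈ Ico 1 (k + 1), f (r - j) = ∑ j ∈ Ico 1 (k + 1), f j := by
      refine Finset.sum_congr rfl fun j hj => hf j ?_
      rw [mem_Ico] at hj ⊢; omega
    have h6 : r + 1 - (k + 1) = k + 1 := by omega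
    have h7 : r + 1 - 1 = r := by omega
    rw [h6, h7, h5] at h4
    rw [← h2, ← h4]
    ring

lemma Q_refl (g r a : ℕ) (hr : 1 ≤ r) (ha : a ≤ r) : Q g r (r - a) = Q g r a := by
  unfold Q
  refine Finset.sum_congr rfl fun b _ => ?_
  have hr' : (r : ℝ) ≠ 0 := by
    have : r ≠ 0 := by omega
    exact_mod_cast this
  have e1 : Real.pi * (((r - a : ℕ) : ℝ) * b) / r = b * Real.pi - Real.pi * ((a : ℝ) * b) / r := by
    rw [Nat.cast_sub ha]; field_simp
  rw [e1, Real.sin_sub, Real.sin_nat_mul_pi, zero_mul, zero_sub, neg_sq, mul_pow]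
  have e2 : Real.cos (b * Real.pi) ^ 2 = 1 := by
    have := Real.sin_sq_add_cos_sq ((b : ℝ) * Real.pi)
    rw [Real.sin_nat_mul_pi] at this
    linarith
  rw [e2, one_mul]

/-- the truncated power sums -/
noncomputable def sg (s : ℤ) (r : ℕ) : ℝ := ∑ a ∈ Icc 1 ((r - 1) / 2), (a : ℝ) ^ s

lemma even_term (hPS : S_PS) (g i j : ℕ) (hig : i ≤ g) (e : Polynomial ℝ)
    (he : e.natDegree ≤ 2 * g - 2 * i) :
    AP (2 * g + 1) 0 (fun r => e.eval (r : ℝ) * (r : ℝ) ^ (2 * j) * sg (2 * (i : ℤ) - 2 * j) r) := by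
  obtain ⟨z, K, hz⟩ := hPS (2 * (i : ℤ) - 2 * j)
  obtain ⟨Ke, hKe, hke⟩ := poly_bound e _ he
  have hex : ∀ r : ℕ, 1 ≤ r → (r : ℝ) ^ (2 * g - 2 * i) * (r : ℝ) ^ (2 * j) *
      (r : ℝ) ^ (2 * (i : ℤ) - 2 * j + 1) = (r : ℝ) ^ (2 * g + 1) := by
    intro r hr
    have hr0 : (r : ℝ) ≠ 0 := by
      have : r ≠ 0 := by omega
      exact_mod_cast this
    rw [← zpow_natCast, ← zpow_natCast, ← zpow_natCast, ← zpow_add₀ hr0, ← zpow_add₀ hr0]
    congr 1
    push_cast [Nat.cast_sub (show 2 * i ≤ 2 * g by omega)]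
    ring
  refine ⟨if 2 * (i : ℤ) - 2 * j ≤ -2 then C z * e * X ^ (2 * j) else 0, Ke * |K|, by positivity,
    fun r hr => ?_⟩
  have h1 := hz r hr
  have h2 : (if 2 * (i : ℤ) - 2 * j ≤ -2 then z else
      if 2 * (i : ℤ) - 2 * j = -1 then Real.log r else 0) =
      if 2 * (i : ℤ) - 2 * j ≤ -2 then z else 0 := by
    rw [if_neg (show ¬ 2 * (i : ℤ) - 2 * j = -1 by omega)]
  rw [h2] at h1
  have h3 : e.eval (r : ℝ) * (r : ℝ) ^ (2 * j) * sg (2 * (i : ℤ) - 2 * j) r -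
      ((if 2 * (i : ℤ) - 2 * j ≤ -2 then C z * e * X ^ (2 * j) else 0 : Polynomial ℝ).eval (r : ℝ) +
        0 * ((r : ℝ) ^ (2 * g + 1) * Real.log r)) =
      e.eval (r : ℝ) * (r : ℝ) ^ (2 * j) * (sg (2 * (i : ℤ) - 2 * j) r -
        if 2 * (i : ℤ) - 2 * j ≤ -2 then z else 0) := by
    split_ifs with h
    · simp only [eval_mul, eval_C, eval_pow, eval_X]; ring
    · simp
  rw [h3, abs_mul, abs_mul, abs_of_nonneg (by positivity : (0 : ℝ) ≤ (r : ℝ) ^ (2 * j))]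
  have hp : (0 : ℝ) ≤ (r : ℝ) ^ (2 * (i : ℤ) - 2 * j + 1) := by positivity
  calc |e.eval (r : ℝ)| * (r : ℝ) ^ (2 * j) * |sg (2 * (i : ℤ) - 2 * j) r -
        if 2 * (i : ℤ) - 2 * j ≤ -2 then z else 0|
      ≤ (Ke * (r : ℝ) ^ (2 * g - 2 * i)) * (r : ℝ) ^ (2 * j) *
        (|K| * (r : ℝ) ^ (2 * (i : ℤ) - 2 * j + 1)) := by
        refine mul_le_mul (mul_le_mul_of_nonneg_right (hke r hr) (by positivity)) ?_ (abs_nonneg _)
          (by positivity)
        exact h1.trans (mul_le_mul_of_nonneg_right (le_abs_self K) hp)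
    _ = Ke * |K| * ((r : ℝ) ^ (2 * g - 2 * i) * (r : ℝ) ^ (2 * j) *
        (r : ℝ) ^ (2 * (i : ℤ) - 2 * j + 1)) := by ring
    _ = Ke * |K| * (r : ℝ) ^ (2 * g + 1) := by rw [hex r hr]

lemma odd_term (hPS : S_PS) (g i j : ℕ) (hig : i ≤ g) (o : ℝ) :
    AP (2 * g + 1) (if i = g ∧ j = g then o else 0)
      (fun r => o * (r : ℝ) ^ (2 * j + 1) * sg (2 * (i : ℤ) - 1 - 2 * j) r) := by
  obtain ⟨z, K, hz⟩ := hPS (2 * (i : ℤ) - 1 - 2 * j)
  have hex : ∀ r : ℕ, 1 ≤ r → (r : ℝ) ^ (2 * j + 1) *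
      (r : ℝ) ^ (2 * (i : ℤ) - 1 - 2 * j + 1) = (r : ℝ) ^ (2 * i + 1) := by
    intro r hr
    have hr0 : (r : ℝ) ≠ 0 := by
      have : r ≠ 0 := by omega
      exact_mod_cast this
    rw [← zpow_natCast, ← zpow_natCast, ← zpow_add₀ hr0]
    congr 1
    push_cast
    ring
  have hle : ∀ r : ℕ, 1 ≤ r → (r : ℝ) ^ (2 * i + 1) ≤ (r : ℝ) ^ (2 * g + 1) := by
    intro r hr
    have hr' : (1 : ℝ) ≤ r := by exact_mod_cast hr
    exact pow_le_pow_right₀ hr' (by omega)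
  have hmain : ∀ r : ℕ, 1 ≤ r → |o| * (r : ℝ) ^ (2 * j + 1) * (|K| *
      (r : ℝ) ^ (2 * (i : ℤ) - 1 - 2 * j + 1)) ≤ |o| * |K| * (r : ℝ) ^ (2 * g + 1) := by
    intro r hr
    calc |o| * (r : ℝ) ^ (2 * j + 1) * (|K| * (r : ℝ) ^ (2 * (i : ℤ) - 1 - 2 * j + 1))
        = |o| * |K| * ((r : ℝ) ^ (2 * j + 1) * (r : ℝ) ^ (2 * (i : ℤ) - 1 - 2 * j + 1)) := by ring
      _ = |o| * |K| * (r : ℝ) ^ (2 * i + 1) := by rw [hex r hr]
      _ ≤ _ := mul_le_mul_of_nonneg_left (hle r hr) (by positivity)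
  have herr : ∀ r : ℕ, 1 ≤ r → |o * (r : ℝ) ^ (2 * j + 1) * (sg (2 * (i : ℤ) - 1 - 2 * j) r -
      (if 2 * (i : ℤ) - 1 - 2 * j ≤ -2 then z else
        if 2 * (i : ℤ) - 1 - 2 * j = -1 then Real.log r else 0))| ≤ |o| * |K| * (r : ℝ) ^ (2 * g + 1) := by
    intro r hr
    rw [abs_mul, abs_mul, abs_of_nonneg (by positivity : (0 : ℝ) ≤ (r : ℝ) ^ (2 * j + 1))]
    refine le_trans ?_ (hmain r hr)
    refine mul_le_mul_of_nonneg_left ?_ (by positivity)
    exact (hz r hr).trans (mul_le_mul_of_nonneg_right (le_abs_self K) (by positivity))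
  by_cases hs : 2 * (i : ℤ) - 1 - 2 * j = -1
  · -- i = j
    have hij : i = j := by omega
    subst hij
    by_cases hg : i = g
    · subst hg
      rw [if_pos ⟨rfl, rfl⟩]
      refine ⟨0, |o| * |K|, by positivity, fun r hr => ?_⟩
      have h1 := herr r hr
      rw [if_neg (by omega), if_pos hs] at h1
      have e1 : o * (r : ℝ) ^ (2 * i + 1) * sg (2 * (i : ℤ) - 1 - 2 * i) r -
          ((0 : Polynomial ℝ).eval (r : ℝ) + o * ((r : ℝ) ^ (2 * i + 1) * Real.log r)) =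
          o * (r : ℝ) ^ (2 * i + 1) * (sg (2 * (i : ℤ) - 1 - 2 * i) r - Real.log r) := by
        rw [eval_zero]; ring
      rw [e1]; exact h1
    · rw [if_neg (by tauto)]
      refine AP.of_bound (|o| * |K| + |o|) fun r hr => ?_
      have h1 := herr r hr
      rw [if_neg (by omega), if_pos hs] at h1
      have hr' : (1 : ℝ) ≤ r := by exact_mod_cast hr
      have hlog : 0 ≤ Real.log r := Real.log_nonneg hr'
      have hlog2 : Real.log r ≤ r := (Real.log_le_sub_one_of_pos (by linarith)).trans (by linarith)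
      have e1 : o * (r : ℝ) ^ (2 * i + 1) * sg (2 * (i : ℤ) - 1 - 2 * i) r =
          o * (r : ℝ) ^ (2 * i + 1) * (sg (2 * (i : ℤ) - 1 - 2 * i) r - Real.log r) +
          o * (r : ℝ) ^ (2 * i + 1) * Real.log r := by ring
      rw [e1, add_mul]
      refine (abs_add_le _ _).trans (add_le_add h1 ?_)
      rw [abs_mul, abs_mul, abs_of_nonneg (by positivity : (0 : ℝ) ≤ (r : ℝ) ^ (2 * i + 1)),
        abs_of_nonneg hlog, mul_assoc]
      refine mul_le_mul_of_nonneg_left ?_ (abs_nonneg o)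
      calc (r : ℝ) ^ (2 * i + 1) * Real.log r ≤ (r : ℝ) ^ (2 * i + 1) * r :=
            mul_le_mul_of_nonneg_left hlog2 (by positivity)
        _ = (r : ℝ) ^ (2 * i + 2) := by ring
        _ ≤ _ := pow_le_pow_right₀ hr' (by omega)
  · have hnn : ¬ (i = g ∧ j = g) := by rintro ⟨h1, h2⟩; omega
    rw [if_neg hnn]
    refine ⟨if 2 * (i : ℤ) - 1 - 2 * j ≤ -2 then C (z * o) * X ^ (2 * j + 1) else 0, |o| * |K|,
      by positivity, fun r hr => ?_⟩
    have h1 := herr r hr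
    rw [if_neg hs] at h1
    refine le_trans (le_of_eq ?_) h1
    congr 1
    split_ifs with h
    · simp only [eval_mul, eval_C, eval_pow, eval_X]; ring
    · simp

theorem as_of (hPS : S_PS) (hLA : S_LA) (hQS : S_QS) : S_AS := by
  intro g G hg hgG
  obtain ⟨γ, KL, hγ, hL⟩ := hLA G (hg.trans hgG)
  obtain ⟨e, o, he, hog, hQ⟩ := hQS g hg
  -- bound for Q
  obtain ⟨KQ, hKQ0, hKQ⟩ : ∃ KQ : ℝ, 0 ≤ KQ ∧ ∀ r a : ℕ, 1 ≤ r → a ≤ r → |Q g r a| ≤ KQ * (r : ℝ) ^ (2 * g) := by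
    have h1 : ∀ i ∈ Icc 1 g, ∃ K : ℝ, 0 ≤ K ∧ ∀ r : ℕ, 1 ≤ r →
        |(e i).eval (r : ℝ)| ≤ K * (r : ℝ) ^ (2 * g - 2 * i) := fun i hi => poly_bound _ _ (he i hi)
    choose! Ke hKe0 hKe using h1
    refine ⟨∑ i ∈ Icc 1 g, Ke i + ∑ i ∈ Icc 1 g, |o i|, add_nonneg (Finset.sum_nonneg hKe0)
      (Finset.sum_nonneg fun _ _ => abs_nonneg _), fun r a hr ha => ?_⟩
    have hr' : (1 : ℝ) ≤ r := by exact_mod_cast hr
    have ha' : (a : ℝ) ≤ r := by exact_mod_cast ha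
    rw [hQ r a hr ha, add_mul, Finset.sum_mul, Finset.sum_mul, Finset.mul_sum]
    refine (abs_add_le _ _).trans (add_le_add ?_ ?_)
    · refine (Finset.abs_sum_le_sum_abs _ _).trans (Finset.sum_le_sum fun i hi => ?_)
      have h2 := hKe i hi r hr
      rw [mem_Icc] at hi
      rw [abs_mul, abs_of_nonneg (by positivity : (0 : ℝ) ≤ (a : ℝ) ^ (2 * i))]
      calc |(e i).eval (r : ℝ)| * (a : ℝ) ^ (2 * i) ≤ (Ke i * (r : ℝ) ^ (2 * g - 2 * i)) * (r : ℝ) ^ (2 * i) :=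
            mul_le_mul h2 (pow_le_pow_left₀ (by positivity) ha' _) (by positivity)
              ((abs_nonneg _).trans h2)
        _ = Ke i * (r : ℝ) ^ (2 * g) := by
            rw [mul_assoc, ← pow_add]; congr 2; omega
    · refine (Finset.abs_sum_le_sum_abs _ _).trans (Finset.sum_le_sum fun i hi => ?_)
      rw [mem_Icc] at hi
      rw [abs_mul, abs_mul, abs_of_nonneg (by positivity : (0 : ℝ) ≤ (r : ℝ)),
        abs_of_nonneg (by positivity : (0 : ℝ) ≤ (a : ℝ) ^ (2 * i - 1))]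
      calc (r : ℝ) * (|o i| * (a : ℝ) ^ (2 * i - 1)) ≤ r * (|o i| * (r : ℝ) ^ (2 * i - 1)) := by
            refine mul_le_mul_of_nonneg_left ?_ (by positivity)
            exact mul_le_mul_of_nonneg_left (pow_le_pow_left₀ (by positivity) ha' _) (abs_nonneg _)
        _ = |o i| * (r : ℝ) ^ (2 * i) := by
            have : (r : ℝ) ^ (2 * i) = r * (r : ℝ) ^ (2 * i - 1) := by
              rw [← pow_succ']; congr 1; omega
            rw [this]; ring
        _ ≤ |o i| * (r : ℝ) ^ (2 * g) :=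
            mul_le_mul_of_nonneg_left (pow_le_pow_right₀ hr' (by omega)) (abs_nonneg _)
  -- the main part
  set T : ℕ → ℝ := fun r => ∑ j ∈ Icc 1 G, (γ j / Real.pi ^ (2 * j)) *
    (∑ i ∈ Icc 1 g, (e i).eval (r : ℝ) * (r : ℝ) ^ (2 * j) * sg (2 * (i : ℤ) - 2 * j) r +
      ∑ i ∈ Icc 1 g, o i * (r : ℝ) ^ (2 * j + 1) * sg (2 * (i : ℤ) - 1 - 2 * j) r) with hT
  have hTAP : AP (2 * g + 1) (∑ j ∈ Icc 1 G, (γ j / Real.pi ^ (2 * j)) *
      (∑ _i ∈ Icc 1 g, (0 : ℝ) + ∑ i ∈ Icc 1 g, if i = g ∧ j = g then o i else 0)) T := by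
    refine AP.sum _ _ (fun j r => (γ j / Real.pi ^ (2 * j)) *
      (∑ i ∈ Icc 1 g, (e i).eval (r : ℝ) * (r : ℝ) ^ (2 * j) * sg (2 * (i : ℤ) - 2 * j) r +
      ∑ i ∈ Icc 1 g, o i * (r : ℝ) ^ (2 * j + 1) * sg (2 * (i : ℤ) - 1 - 2 * j) r)) fun j _ => ?_
    refine AP.smul _ (AP.add ?_ ?_)
    · refine AP.sum _ _ (fun i r => (e i).eval (r : ℝ) * (r : ℝ) ^ (2 * j) * sg (2 * (i : ℤ) - 2 * j) r)
        fun i hi => ?_
      have hi' := mem_Icc.mp hi
      exact even_term hPS g i j hi'.2 (e i) (he i hi)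
    · refine AP.sum _ _ (fun i r => o i * (r : ℝ) ^ (2 * j + 1) * sg (2 * (i : ℤ) - 1 - 2 * j) r)
        fun i hi => ?_
      have hi' := mem_Icc.mp hi
      exact odd_term hPS g i j hi'.2 (o i)
  have hc : ∑ j ∈ Icc 1 G, (γ j / Real.pi ^ (2 * j)) *
      (∑ _i ∈ Icc 1 g, (0 : ℝ) + ∑ i ∈ Icc 1 g, if i = g ∧ j = g then o i else 0) =
      γ g / Real.pi ^ (2 * g) * o g := by
    have hgm : g ∈ Icc 1 G := mem_Icc.mpr ⟨hg, hgG⟩
    have hgm' : g ∈ Icc 1 g := mem_Icc.mpr ⟨hg, le_rfl⟩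
    rw [Finset.sum_eq_single_of_mem g hgm]
    · rw [Finset.sum_const_zero, zero_add, Finset.sum_eq_single_of_mem g hgm']
      · rw [if_pos ⟨rfl, rfl⟩]
      · intro i _ hi
        rw [if_neg (by tauto)]
    · intro j _ hj
      have : ∑ i ∈ Icc 1 g, (if i = g ∧ j = g then o i else 0) = 0 :=
        Finset.sum_eq_zero fun i _ => by rw [if_neg (by tauto)]
      rw [this]; simp
  rw [hc] at hTAP
  -- the half sum
  set H : ℕ → ℝ := fun r => ∑ a ∈ Icc 1 ((r - 1) / 2), Q g r a / Real.sin (Real.pi * a / r) ^ (2 * G) with hH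
  have hHT : AP (2 * g + 1) 0 (fun r => H r - T r) := by
    refine AP.of_bound (KQ * KL) fun r hr => ?_
    have hr' : (1 : ℝ) ≤ r := by exact_mod_cast hr
    have hr0 : (0 : ℝ) < r := by linarith
    have hT2 : T r = ∑ a ∈ Icc 1 ((r - 1) / 2), Q g r a *
        ∑ j ∈ Icc 1 G, γ j / (Real.pi * a / r) ^ (2 * j) := by
      rw [hT]
      have h1 : ∀ a ∈ Icc 1 ((r - 1) / 2), Q g r a * ∑ j ∈ Icc 1 G, γ j / (Real.pi * a / r) ^ (2 * j) =
          ∑ j ∈ Icc 1 G, (γ j / Real.pi ^ (2 * j)) * (∑ i ∈ Icc 1 g, (e i).eval (r : ℝ) *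
            (r : ℝ) ^ (2 * j) * (a : ℝ) ^ (2 * (i : ℤ) - 2 * j) +
            ∑ i ∈ Icc 1 g, o i * (r : ℝ) ^ (2 * j + 1) * (a : ℝ) ^ (2 * (i : ℤ) - 1 - 2 * j)) := by
        intro a ha
        rw [mem_Icc] at ha
        have ha0 : (a : ℝ) ≠ 0 := by
          have : a ≠ 0 := by omega
          exact_mod_cast this
        rw [Finset.mul_sum]
        refine Finset.sum_congr rfl fun j _ => ?_
        rw [hQ r a hr (by omega), add_mul, Finset.sum_mul, Finset.mul_sum, Finset.sum_mul, mul_add,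
          Finset.mul_sum, Finset.mul_sum]
        congr 1
        · refine Finset.sum_congr rfl fun i _ => ?_
          have e1 : (a : ℝ) ^ (2 * (i : ℤ) - 2 * j) = (a : ℝ) ^ (2 * i) / (a : ℝ) ^ (2 * j) := by
            rw [zpow_sub₀ ha0]; norm_cast
          rw [e1, div_pow, mul_pow]
          field_simp
        · refine Finset.sum_congr rfl fun i hi => ?_
          have hi' := mem_Icc.mp hi
          have e1 : (a : ℝ) ^ (2 * (i : ℤ) - 1 - 2 * j) = (a : ℝ) ^ (2 * i - 1) / (a : ℝ) ^ (2 * j) := by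
            rw [zpow_sub₀ ha0]
            have : (2 * (i : ℤ) - 1) = ((2 * i - 1 : ℕ) : ℤ) := by
              push_cast [Nat.cast_sub (show 1 ≤ 2 * i by omega)]; ring
            rw [this, zpow_natCast]; norm_cast
          rw [e1, div_pow, mul_pow, pow_succ (r : ℝ) (2 * j)]
          field_simp
      rw [Finset.sum_congr rfl h1, Finset.sum_comm]
      refine Finset.sum_congr rfl fun j _ => ?_
      rw [← Finset.mul_sum, Finset.sum_add_distrib, Finset.sum_comm, Finset.sum_comm (s := Icc 1 ((r - 1) / 2))]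
      congr 2
      · refine Finset.sum_congr rfl fun i _ => ?_
        rw [sg, Finset.mul_sum]
      · refine Finset.sum_congr rfl fun i _ => ?_
        rw [sg, Finset.mul_sum]
    have hdiff : H r - T r = ∑ a ∈ Icc 1 ((r - 1) / 2), Q g r a *
        (1 / Real.sin (Real.pi * a / r) ^ (2 * G) - ∑ j ∈ Icc 1 G, γ j / (Real.pi * a / r) ^ (2 * j)) := by
      rw [hT2, hH, ← Finset.sum_sub_distrib]
      refine Finset.sum_congr rfl fun a _ => ?_
      ring
    show |H r - T r| ≤ _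
    rw [hdiff]
    refine (Finset.abs_sum_le_sum_abs _ _).trans ?_
    have h2 : ∀ a ∈ Icc 1 ((r - 1) / 2), |Q g r a * (1 / Real.sin (Real.pi * a / r) ^ (2 * G) -
        ∑ j ∈ Icc 1 G, γ j / (Real.pi * a / r) ^ (2 * j))| ≤ KQ * (r : ℝ) ^ (2 * g) * KL := by
      intro a ha
      rw [mem_Icc] at ha
      have ha0 : (0 : ℝ) < a := by
        have : 0 < a := by omega
        exact_mod_cast this
      have ha2 : 2 * (a : ℝ) ≤ r := by
        have : 2 * a ≤ r := by omega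
        exact_mod_cast this
      have h3 := hL (Real.pi * a / r) (by positivity) (by
        rw [div_le_div_iff₀ hr0 (by norm_num)]
        have := Real.pi_pos
        nlinarith)
      rw [abs_mul]
      exact mul_le_mul (hKQ r a hr (by omega)) h3 (abs_nonneg _) (by positivity)
    refine (Finset.sum_le_sum h2).trans ?_
    rw [Finset.sum_const, nsmul_eq_mul, Nat.card_Icc]
    have hKL : 0 ≤ KL := by
      have := hL (Real.pi / 2) (by positivity) le_rfl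
      exact (abs_nonneg _).trans this
    have h4 : (((r - 1) / 2 + 1 - 1 : ℕ) : ℝ) ≤ r := by
      have : (r - 1) / 2 + 1 - 1 ≤ r := by omega
      exact_mod_cast this
    calc (((r - 1) / 2 + 1 - 1 : ℕ) : ℝ) * (KQ * (r : ℝ) ^ (2 * g) * KL) ≤
        r * (KQ * (r : ℝ) ^ (2 * g) * KL) := mul_le_mul_of_nonneg_right h4 (by positivity)
      _ = KQ * KL * (r : ℝ) ^ (2 * g + 1) := by ring
  -- the middle term
  have hmid : AP (2 * g + 1) 0 (fun r => if r % 2 = 0 then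
      Q g r (r / 2) / Real.sin (Real.pi * ((r / 2 : ℕ) : ℝ) / r) ^ (2 * G) else 0) := by
    refine AP.of_bound KQ fun r hr => ?_
    have hr' : (1 : ℝ) ≤ r := by exact_mod_cast hr
    split_ifs with h
    · have e1 : Real.pi * ((r / 2 : ℕ) : ℝ) / r = Real.pi / 2 := by
        have h5 : ((r / 2 : ℕ) : ℝ) = (r : ℝ) / 2 := by
          rw [Nat.cast_div (Nat.dvd_of_mod_eq_zero h) (by norm_num)]; norm_num
        rw [h5]
        have hr0 : (r : ℝ) ≠ 0 := by linarith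
        field_simp
      rw [e1, Real.sin_pi_div_two, one_pow, div_one]
      refine (hKQ r (r / 2) hr (by omega)).trans ?_
      exact mul_le_mul_of_nonneg_left (pow_le_pow_right₀ hr' (by omega)) hKQ0
    · rw [abs_zero]; positivity
  have hfin := ((hTAP.smul 2).add (hHT.smul 2)).add hmid
  have hA : ∀ r : ℕ, 1 ≤ r → A G g r = 2 * T r + 2 * (H r - T r) + (if r % 2 = 0 then
      Q g r (r / 2) / Real.sin (Real.pi * ((r / 2 : ℕ) : ℝ) / r) ^ (2 * G) else 0) := by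
    intro r hr
    have h1 : A G g r = ∑ a ∈ Ico 1 r, Q g r a / Real.sin (Real.pi * a / r) ^ (2 * G) := by
      unfold A Q
      refine Finset.sum_congr rfl fun a _ => ?_
      rw [Finset.sum_div]
      refine Finset.sum_congr rfl fun b _ => ?_
      rw [div_div, mul_comm (Real.sin (Real.pi * b / r) ^ (2 * g))]
    rw [h1, half_sum (fun a => Q g r a / Real.sin (Real.pi * a / r) ^ (2 * G)) r hr ?_]
    · ring
    · intro a ha
      rw [mem_Ico] at ha
      rw [Q_refl g r a hr (by omega)]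
      have hr0 : (r : ℝ) ≠ 0 := by
        have : r ≠ 0 := by omega
        exact_mod_cast this
      have e1 : Real.pi * ((r - a : ℕ) : ℝ) / r = Real.pi - Real.pi * a / r := by
        rw [Nat.cast_sub (by omega)]; field_simp
      rw [e1, Real.sin_pi_sub]
  have hfin2 := hfin.congr hA
  obtain ⟨P, K, -, h⟩ := hfin2
  refine ⟨P, _, K, ?_, h⟩
  have h6 := hγ g (mem_Icc.mpr ⟨hg, hgG⟩)
  have hpi := Real.pi_pos
  have : γ g / Real.pi ^ (2 * g) * o g ≠ 0 := mul_ne_zero (by positivity) hog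
  simpa using this

end H562BP
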