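import Mathlib
import Pool.Agent.H562.BP.Stm

set_option autoImplicit false

open Finset Polynomial

namespace H562BP

/-! ### central factorials -/

noncomputable def pf : ℕ → Polynomial ℝ
  | 0 => 1
  | i + 1 => pf i * (X - C ((i : ℝ) ^ 2)) * C (1 / ((2 * (i : ℝ) + 1) * (2 * (i : ℝ) + 2)))

noncomputable def ps : ℕ → Polynomial ℝ
  | 0 => 1
  | i + 1 => ps i * (X - C (((i : ℝ) + 1) ^ 2)) * C (1 / ((2 * (i : ℝ) + 2) * (2 * (i : ℝ) + 3)))

noncomputable def ph (i : ℕ) (a : ℝ) : ℝ := (pf i).eval (a ^ 2)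
noncomputable def si (i : ℕ) (a : ℝ) : ℝ := a * (ps i).eval (a ^ 2)

lemma ph_zero (a : ℝ) : ph 0 a = 1 := by simp [ph, pf]
lemma si_zero (a : ℝ) : si 0 a = a := by simp [si, ps]

lemma ph_succ (i : ℕ) (a : ℝ) :
    ph (i + 1) a = ph i a * (a ^ 2 - (i : ℝ) ^ 2) * (1 / ((2 * i + 1) * (2 * i + 2))) := by
  simp only [ph, pf, eval_mul, eval_sub, eval_X, eval_C]

lemma si_succ (i : ℕ) (a : ℝ) :
    si (i + 1) a = si i a * (a ^ 2 - ((i : ℝ) + 1) ^ 2) * (1 / ((2 * i + 2) * (2 * i + 3))) := by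
  simp only [si, ps, eval_mul, eval_sub, eval_X, eval_C]
  ring

lemma ph_neg (i : ℕ) (a : ℝ) : ph i (-a) = ph i a := by simp [ph]
lemma si_neg (i : ℕ) (a : ℝ) : si i (-a) = - si i a := by simp [si]

lemma ph_one (a : ℝ) : ph 1 a = a ^ 2 / 2 := by
  rw [ph_succ, ph_zero]; norm_num; ring

lemma ph_shift (i : ℕ) (a : ℝ) :
    a * ph (i + 1) (a + 1) * ((2 * i + 1) * (2 * i + 2)) =
      ph i a * ((a + 1) * (a + i) * (a + i + 1)) := by
  induction i with
  | zero => rw [ph_one, ph_zero]; push_cast; ring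
  | succ i ih =>
    rw [ph_succ (i + 1)]
    have h2 : ((2 * (i : ℝ) + 1) * (2 * i + 2)) ≠ 0 := by positivity
    have h3 : ((2 * ((i + 1 : ℕ) : ℝ) + 1) * (2 * ((i + 1 : ℕ) : ℝ) + 2)) ≠ 0 := by positivity
    have e1 : a * (ph (i + 1) (a + 1) * ((a + 1) ^ 2 - ((i + 1 : ℕ) : ℝ) ^ 2) *
        (1 / ((2 * ((i + 1 : ℕ) : ℝ) + 1) * (2 * ((i + 1 : ℕ) : ℝ) + 2)))) *
        ((2 * ((i + 1 : ℕ) : ℝ) + 1) * (2 * ((i + 1 : ℕ) : ℝ) + 2)) =
        a * ph (i + 1) (a + 1) * ((a + 1) ^ 2 - ((i + 1 : ℕ) : ℝ) ^ 2) := by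
      field_simp
    rw [e1, ph_succ i a]
    have e2 : a * ph (i + 1) (a + 1) = ph i a * ((a + 1) * (a + i) * (a + i + 1)) /
        ((2 * (i : ℝ) + 1) * (2 * i + 2)) := by
      rw [eq_div_iff h2]; exact ih
    rw [e2]
    push_cast
    field_simp
    ring

lemma si_shift (i : ℕ) (a : ℝ) :
    si (i + 1) (a + 1) * ((2 * i + 2) * (2 * i + 3)) =
      si i a * ((a + i + 1) * (a + i + 2)) := by
  induction i with
  | zero => rw [si_succ, si_zero, si_zero]; push_cast; ring
  | succ i ih =>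
    rw [si_succ (i + 1)]
    have h2 : ((2 * (i : ℝ) + 2) * (2 * i + 3)) ≠ 0 := by positivity
    have h3 : ((2 * ((i + 1 : ℕ) : ℝ) + 2) * (2 * ((i + 1 : ℕ) : ℝ) + 3)) ≠ 0 := by positivity
    have e1 : (si (i + 1) (a + 1) * ((a + 1) ^ 2 - (((i + 1 : ℕ) : ℝ) + 1) ^ 2) *
        (1 / ((2 * ((i + 1 : ℕ) : ℝ) + 2) * (2 * ((i + 1 : ℕ) : ℝ) + 3)))) *
        ((2 * ((i + 1 : ℕ) : ℝ) + 2) * (2 * ((i + 1 : ℕ) : ℝ) + 3)) =
        si (i + 1) (a + 1) * ((a + 1) ^ 2 - (((i + 1 : ℕ) : ℝ) + 1) ^ 2) := by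
      field_simp
    rw [e1, si_succ i a]
    have e2 : si (i + 1) (a + 1) = si i a * ((a + i + 1) * (a + i + 2)) /
        ((2 * (i : ℝ) + 2) * (2 * i + 3)) := by
      rw [eq_div_iff h2]; exact ih
    rw [e2]
    push_cast
    field_simp
    ring

lemma ph_diff (i : ℕ) (a : ℝ) (ha : a ≠ 0) :
    ph (i + 1) (a + 1) + ph (i + 1) (a - 1) - 2 * ph (i + 1) a = ph i a := by
  have h1 := ph_shift i a
  have h2 := ph_shift i (-a)
  rw [show -a + 1 = -(a - 1) by ring, ph_neg, ph_neg] at h2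
  have h3 := ph_succ i a
  have h4 : ((2 * (i : ℝ) + 1) * (2 * i + 2)) ≠ 0 := by positivity
  have h5 : ph (i + 1) a * ((2 * (i : ℝ) + 1) * (2 * i + 2)) = ph i a * (a ^ 2 - (i : ℝ) ^ 2) := by
    rw [h3]; field_simp
  have h6 : (a * ((2 * (i : ℝ) + 1) * (2 * i + 2))) *
      (ph (i + 1) (a + 1) + ph (i + 1) (a - 1) - 2 * ph (i + 1) a) =
      (a * ((2 * (i : ℝ) + 1) * (2 * i + 2))) * ph i a := by
    linear_combination h1 - h2 - 2 * a * h5
  exact mul_left_cancel₀ (mul_ne_zero ha h4) h6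

lemma si_diff (i : ℕ) (a : ℝ) :
    si (i + 1) (a + 1) + si (i + 1) (a - 1) - 2 * si (i + 1) a = si i a := by
  have h1 := si_shift i a
  have h2 := si_shift i (-a)
  rw [show -a + 1 = -(a - 1) by ring, si_neg, si_neg] at h2
  have h3 := si_succ i a
  have h4 : ((2 * (i : ℝ) + 2) * (2 * i + 3)) ≠ 0 := by positivity
  have h5 : si (i + 1) a * ((2 * (i : ℝ) + 2) * (2 * i + 3)) =
      si i a * (a ^ 2 - ((i : ℝ) + 1) ^ 2) := by
    rw [h3]; field_simp
  have h6 : ((2 * (i : ℝ) + 2) * (2 * i + 3)) *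
      (si (i + 1) (a + 1) + si (i + 1) (a - 1) - 2 * si (i + 1) a) =
      ((2 * (i : ℝ) + 2) * (2 * i + 3)) * si i a := by
    linear_combination h1 - h2 - 2 * h5
  exact mul_left_cancel₀ h4 h6

/-! ### divisibility and degrees -/

lemma pf_deg (i : ℕ) : (pf i).natDegree ≤ i := by
  induction i with
  | zero => simp [pf]
  | succ i ih =>
    rw [pf]
    refine (natDegree_mul_C_le _ _).trans ?_
    refine natDegree_mul_le.trans ?_
    have : (X - C ((i : ℝ) ^ 2)).natDegree ≤ 1 := by rw [natDegree_X_sub_C]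
    omega

lemma ps_deg (i : ℕ) : (ps i).natDegree ≤ i := by
  induction i with
  | zero => simp [ps]
  | succ i ih =>
    rw [ps]
    refine (natDegree_mul_C_le _ _).trans ?_
    refine natDegree_mul_le.trans ?_
    have : (X - C (((i : ℝ) + 1) ^ 2)).natDegree ≤ 1 := by rw [natDegree_X_sub_C]
    omega

lemma ps_coeff (i : ℕ) : (ps i).coeff i ≠ 0 := by
  induction i with
  | zero => simp [ps]
  | succ i ih =>
    rw [ps, coeff_mul_C, mul_sub, coeff_sub, coeff_mul_X, coeff_mul_C]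
    have h0 : (ps i).coeff (i + 1) = 0 :=
      coeff_eq_zero_of_natDegree_lt (lt_of_le_of_lt (ps_deg i) (Nat.lt_succ_self i))
    rw [h0, zero_mul, sub_zero]
    refine mul_ne_zero ih ?_
    positivity

lemma pf_dvd (i : ℕ) : ∃ p : Polynomial ℝ, pf (i + 1) = X * p ∧ p.natDegree ≤ i := by
  induction i with
  | zero =>
    refine ⟨C (1 / 2), ?_, by simp⟩
    rw [pf, pf]
    norm_num
  | succ i ih =>
    obtain ⟨p, hp, hd⟩ := ih
    refine ⟨p * (X - C (((i + 1 : ℕ) : ℝ) ^ 2)) * C (1 / ((2 * ((i + 1 : ℕ) : ℝ) + 1) *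
      (2 * ((i + 1 : ℕ) : ℝ) + 2))), ?_, ?_⟩
    · rw [pf, hp]; ring
    · refine (natDegree_mul_C_le _ _).trans ?_
      refine natDegree_mul_le.trans ?_
      have : (X - C (((i + 1 : ℕ) : ℝ) ^ 2)).natDegree ≤ 1 := by rw [natDegree_X_sub_C]
      omega

lemma ph_at_zero (i : ℕ) : ph (i + 1) 0 = 0 := by
  obtain ⟨p, hp, -⟩ := pf_dvd i
  simp [ph, hp]

lemma si_at_zero (i : ℕ) : si i 0 = 0 := by simp [si]

lemma ph_at_one (i : ℕ) : ph (i + 2) 1 = 0 := by
  induction i with
  | zero =>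
    rw [ph_succ, ph_one]; norm_num
  | succ i ih => rw [ph_succ, ih]; ring

lemma si_at_one (i : ℕ) : si (i + 1) 1 = 0 := by
  induction i with
  | zero => rw [si_succ, si_zero]; norm_num
  | succ i ih => rw [si_succ, ih]; ring

/-! ### the inner sum -/

/-- the sum of the powers of 1 / sin -/
noncomputable def Cs (g r : ℕ) : ℝ := ∑ b ∈ Ico 1 r, 1 / Real.sin (Real.pi * b / r) ^ (2 * g)

lemma sin_pos {r b : ℕ} (hb : b ∈ Ico 1 r) : 0 < Real.sin (Real.pi * b / r) := by
  rw [mem_Ico] at hb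
  have hr : (0 : ℝ) < r := by
    have : 0 < r := by omega
    exact_mod_cast this
  have hb1 : (0 : ℝ) < b := by
    have : 0 < b := by omega
    exact_mod_cast this
  have hbr : (b : ℝ) < r := by exact_mod_cast hb.2
  apply Real.sin_pos_of_pos_of_lt_pi
  · positivity
  · rw [div_lt_iff₀ hr]
    exact mul_lt_mul_of_pos_left hbr Real.pi_pos

lemma Q_zero (g r : ℕ) : Q g r 0 = 0 := by
  unfold Q
  refine Finset.sum_eq_zero fun b _ => ?_
  simp

lemma Q_self (g r : ℕ) (hr : 1 ≤ r) : Q g r r = 0 := by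
  unfold Q
  refine Finset.sum_eq_zero fun b _ => ?_
  have hr' : (r : ℝ) ≠ 0 := by
    have : r ≠ 0 := by omega
    exact_mod_cast this
  have : Real.pi * ((r : ℝ) * b) / r = b * Real.pi := by field_simp
  rw [this, Real.sin_nat_mul_pi]
  simp

lemma Q_one (g r : ℕ) : Q (g + 1) r 1 = Cs g r := by
  unfold Q Cs
  refine Finset.sum_congr rfl fun b hb => ?_
  have h := sin_pos hb
  rw [Nat.cast_one, one_mul, mul_add, pow_add]
  field_simp

lemma sin_sq_diff (a θ : ℝ) : Real.sin ((a + 1) * θ) ^ 2 + Real.sin ((a - 1) * θ) ^ 2 -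
    2 * Real.sin (a * θ) ^ 2 = 2 * (1 - 2 * Real.sin (a * θ) ^ 2) * Real.sin θ ^ 2 := by
  rw [add_mul, sub_mul, one_mul, Real.sin_add, Real.sin_sub]
  have h1 := Real.sin_sq_add_cos_sq (a * θ)
  have h2 := Real.sin_sq_add_cos_sq θ
  have h3 : Real.cos (a * θ) ^ 2 = 1 - Real.sin (a * θ) ^ 2 := by linarith
  have h4 : Real.cos θ ^ 2 = 1 - Real.sin θ ^ 2 := by linarith
  ring_nf
  rw [h3, h4]
  ring

lemma Q_diff (g r a : ℕ) :
    Q (g + 1) r (a + 2) + Q (g + 1) r a - 2 * Q (g + 1) r (a + 1) =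
      2 * Cs g r - 4 * Q g r (a + 1) := by
  unfold Q Cs
  rw [Finset.mul_sum, Finset.mul_sum, Finset.mul_sum, ← Finset.sum_add_distrib,
    ← Finset.sum_sub_distrib, ← Finset.sum_sub_distrib]
  refine Finset.sum_congr rfl fun b hb => ?_
  have h := sin_pos hb
  have h1 := sin_sq_diff ((a : ℝ) + 1) (Real.pi * b / r)
  have e1 : Real.pi * (((a + 2 : ℕ) : ℝ) * b) / r = ((a : ℝ) + 1 + 1) * (Real.pi * b / r) := by
    push_cast; ring
  have e2 : Real.pi * ((a : ℝ) * b) / r = ((a : ℝ) + 1 - 1) * (Real.pi * b / r) := by ring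
  have e3 : Real.pi * (((a + 1 : ℕ) : ℝ) * b) / r = ((a : ℝ) + 1) * (Real.pi * b / r) := by
    push_cast; ring
  rw [e1, e2, e3]
  set s := Real.sin (Real.pi * b / r) with hs
  have hs2 : s ^ (2 * (g + 1)) = s ^ (2 * g) * s ^ 2 := by rw [mul_add, pow_add]
  rw [hs2]
  have h2 : ∀ x y z : ℝ, x / (s ^ (2 * g) * s ^ 2) + y / (s ^ (2 * g) * s ^ 2) -
      2 * (z / (s ^ (2 * g) * s ^ 2)) = (x + y - 2 * z) / (s ^ (2 * g) * s ^ 2) := by
    intro x y z; ring
  rw [h2, h1]
  field_simp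
  ring

lemma sum_cos (r a : ℕ) (ha : 1 ≤ a) (har : a < r) :
    ∑ b ∈ Ico 1 r, Real.sin (Real.pi * ((a : ℝ) * b) / r) ^ 2 = r / 2 := by
  have hr : (0 : ℝ) < r := by
    have : 0 < r := by omega
    exact_mod_cast this
  have ha' : (0 : ℝ) < a := by exact_mod_cast ha
  have har' : (a : ℝ) < r := by exact_mod_cast har
  have h0 : ∑ b ∈ Ico 1 r, Real.sin (Real.pi * ((a : ℝ) * b) / r) ^ 2 =
      ∑ b ∈ range r, Real.sin (Real.pi * ((a : ℝ) * b) / r) ^ 2 := by
    rw [Finset.range_eq_Ico, Finset.sum_eq_sum_Ico_succ_bot (by omega : 0 < r)]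
    simp
  rw [h0]
  -- the sum of the roots of unity
  have h1 : ∑ b ∈ range r, Real.cos (2 * (Real.pi * ((a : ℝ) * b) / r)) = 0 := by
    have hz : ∑ b ∈ range r, Complex.exp (2 * Real.pi * Complex.I * a / r) ^ b = 0 := by
      have hne : Complex.exp (2 * Real.pi * Complex.I * a / r) ≠ 1 := by
        intro h
        rw [Complex.exp_eq_one_iff] at h
        obtain ⟨n, hn⟩ := h
        have h3 : (a : ℂ) / r = n := by
          have h2 : (2 * (Real.pi : ℂ) * Complex.I) ≠ 0 := Complex.two_pi_I_ne_zero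
          apply mul_left_cancel₀ h2
          rw [← mul_div_assoc, hn]; ring
        have h4 : (a : ℝ) / r = n := by
          apply Complex.ofReal_injective
          push_cast
          exact h3
        have h5 : 0 < (a : ℝ) / r := by positivity
        have h6 : (a : ℝ) / r < 1 := by rw [div_lt_one hr]; exact har'
        rw [h4] at h5 h6
        have h7 : (0 : ℤ) < n := by exact_mod_cast h5
        have h8 : n < 1 := by exact_mod_cast h6
        omega
      rw [geom_sum_eq hne, ← Complex.exp_nat_mul]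
      have h9 : (r : ℂ) * (2 * Real.pi * Complex.I * a / r) = a * (2 * Real.pi * Complex.I) := by
        have : (r : ℂ) ≠ 0 := by exact_mod_cast hr.ne'
        field_simp
      rw [h9, Complex.exp_nat_mul_two_pi_mul_I, sub_self, zero_div]
    have h2 := congrArg Complex.re hz
    rw [Complex.re_sum, Complex.zero_re] at h2
    rw [← h2]
    refine Finset.sum_congr rfl fun b _ => ?_
    rw [← Complex.exp_nat_mul, show (b : ℂ) * (2 * Real.pi * Complex.I * a / r) =
      ((2 * (Real.pi * ((a : ℝ) * b) / r) : ℝ) : ℂ) * Complex.I by push_cast; ring,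
      Complex.exp_ofReal_mul_I_re]
  have h3 : ∀ b ∈ range r, Real.sin (Real.pi * ((a : ℝ) * b) / r) ^ 2 =
      1 / 2 - Real.cos (2 * (Real.pi * ((a : ℝ) * b) / r)) / 2 := by
    intro b _
    rw [Real.sin_sq_eq_half_sub]
  have h4 : ∑ b ∈ range r, Real.cos (2 * (Real.pi * ((a : ℝ) * b) / r)) / 2 = 0 := by
    rw [← Finset.sum_div, h1, zero_div]
  rw [Finset.sum_congr rfl h3, Finset.sum_sub_distrib, h4, Finset.sum_const, card_range]
  simp
  ring

lemma rec_zero (D : ℕ → ℝ) (r : ℕ) (h0 : D 0 = 0) (h1 : 1 ≤ r → D 1 = 0)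
    (h : ∀ a, a + 2 ≤ r → D (a + 2) + D a - 2 * D (a + 1) = 0) : ∀ a, a ≤ r → D a = 0 := by
  intro a
  induction a using Nat.strong_induction_on with
  | _ a ih =>
    intro ha
    match a with
    | 0 => exact h0
    | 1 => exact h1 ha
    | a + 2 =>
      have e1 := ih (a + 1) (by omega) (by omega)
      have e2 := ih a (by omega) (by omega)
      have := h a ha
      rw [e1, e2] at this
      linarith

lemma Q_one_eq (r a : ℕ) (hr : 1 ≤ r) (ha : a ≤ r) : Q 1 r a = -2 * ph 1 a + r * si 0 a := by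
  have key := rec_zero (fun a => Q 1 r a - (-2 * ph 1 a + r * si 0 a)) r ?_ ?_ ?_ a ha
  · exact sub_eq_zero.mp key
  · simp only [Q_zero, Nat.cast_zero, si_at_zero]
    rw [ph_one]; norm_num
  · intro _
    show Q (0 + 1) r 1 - _ = 0
    rw [Q_one, ph_one, si_zero]
    unfold Cs
    simp
    rw [Nat.cast_sub hr]
    push_cast
    ring
  · intro b hb
    have h1 := Q_diff 0 r b
    have h2 : Q 0 r (b + 1) = r / 2 := by
      unfold Q
      simp only [mul_zero, pow_zero, div_one]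
      exact sum_cos r (b + 1) (by omega) (by omega)
    have h3 : Cs 0 r = (r : ℝ) - 1 := by
      unfold Cs
      simp
      rw [Nat.cast_sub hr]; simp
    rw [h2, h3] at h1
    simp only [ph_one, si_zero]
    have h4 : Q 1 r (b + 2) + Q 1 r b - 2 * Q 1 r (b + 1) = -2 := by
      have : Q (0 + 1) r (b + 2) + Q (0 + 1) r b - 2 * Q (0 + 1) r (b + 1) = -2 := by
        rw [h1]; ring
      exact this
    push_cast
    linear_combination h4

/-- the formula for the next inner sum -/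
lemma Q_next (g r : ℕ) (E : ℕ → ℝ) (η : ℝ) (hg : 1 ≤ g)
    (hQ : ∀ a, a ≤ r → Q g r a = ∑ i ∈ Icc 1 g, E i * ph i a + r * η * si (g - 1) a) :
    ∀ a, a ≤ r → Q (g + 1) r a = 2 * Cs g r * ph 1 a - 4 * ∑ i ∈ Icc 1 g, E i * ph (i + 1) a -
      4 * r * η * si g a := by
  intro a ha
  have key := rec_zero (fun a : ℕ => Q (g + 1) r a - (2 * Cs g r * ph 1 a -
    4 * ∑ i ∈ Icc 1 g, E i * ph (i + 1) a - 4 * r * η * si g a)) r ?_ ?_ ?_ a ha
  · exact sub_eq_zero.mp key
  · simp only [Q_zero, Nat.cast_zero, si_at_zero, ph_at_zero, mul_zero, Finset.sum_const_zero, sub_zero]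
  · intro _
    simp only [Q_one, Nat.cast_one]
    have e1 : ∑ i ∈ Icc 1 g, E i * ph (i + 1) 1 = 0 := by
      refine Finset.sum_eq_zero fun i hi => ?_
      rw [mem_Icc] at hi
      obtain ⟨j, rfl⟩ : ∃ j, i = j + 1 := ⟨i - 1, by omega⟩
      rw [show j + 1 + 1 = j + 2 from rfl, ph_at_one, mul_zero]
    have e2 : si g 1 = 0 := by
      obtain ⟨j, rfl⟩ : ∃ j, g = j + 1 := ⟨g - 1, by omega⟩
      exact si_at_one j
    rw [e1, e2, ph_one]
    ring
  · intro b hb
    have h1 := Q_diff g r b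
    have h2 := hQ (b + 1) (by omega)
    rw [h2] at h1
    have hb0 : ((b : ℝ) + 1) ≠ 0 := by positivity
    have e1 : ∀ i, ph (i + 1) ((b + 2 : ℕ) : ℝ) + ph (i + 1) (b : ℝ) -
        2 * ph (i + 1) ((b + 1 : ℕ) : ℝ) = ph i ((b + 1 : ℕ) : ℝ) := by
      intro i
      have := ph_diff i ((b : ℝ) + 1) hb0
      rw [show (b : ℝ) + 1 + 1 = ((b + 2 : ℕ) : ℝ) by push_cast; ring,
        show (b : ℝ) + 1 - 1 = (b : ℝ) by ring, show (b : ℝ) + 1 = ((b + 1 : ℕ) : ℝ) by push_cast; ring] at this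
      exact this
    have e2 : si g ((b + 2 : ℕ) : ℝ) + si g (b : ℝ) - 2 * si g ((b + 1 : ℕ) : ℝ) =
        si (g - 1) ((b + 1 : ℕ) : ℝ) := by
      obtain ⟨j, rfl⟩ : ∃ j, g = j + 1 := ⟨g - 1, by omega⟩
      have := si_diff j ((b : ℝ) + 1)
      rw [show (b : ℝ) + 1 + 1 = ((b + 2 : ℕ) : ℝ) by push_cast; ring,
        show (b : ℝ) + 1 - 1 = (b : ℝ) by ring, show (b : ℝ) + 1 = ((b + 1 : ℕ) : ℝ) by push_cast; ring] at this
      exact this
    have e3 : ∑ i ∈ Icc 1 g, E i * ph (i + 1) ((b + 2 : ℕ) : ℝ) + ∑ i ∈ Icc 1 g, E i * ph (i + 1) (b : ℝ) -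
        2 * ∑ i ∈ Icc 1 g, E i * ph (i + 1) ((b + 1 : ℕ) : ℝ) =
        ∑ i ∈ Icc 1 g, E i * ph i ((b + 1 : ℕ) : ℝ) := by
      rw [Finset.mul_sum, ← Finset.sum_add_distrib, ← Finset.sum_sub_distrib]
      refine Finset.sum_congr rfl fun i _ => ?_
      rw [← e1 i]; ring
    have e4 := e1 0
    rw [ph_zero] at e4
    simp only [zero_add] at e4
    linear_combination h1 - 2 * Cs g r * e4 + 4 * e3 + 4 * r * η * e2

theorem structure_ind (g : ℕ) (hg : 1 ≤ g) : ∃ (E : ℕ → Polynomial ℝ) (η : ℝ), η ≠ 0 ∧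
    (∀ i ∈ Icc 1 g, (E i).natDegree ≤ 2 * g - 2 * i) ∧
    ∀ r : ℕ, 1 ≤ r → ∀ a : ℕ, a ≤ r →
      Q g r a = ∑ i ∈ Icc 1 g, (E i).eval (r : ℝ) * ph i a + r * η * si (g - 1) a := by
  induction g, hg using Nat.le_induction with
  | base =>
    refine ⟨fun _ => C (-2), 1, one_ne_zero, fun i _ => by simp, fun r hr a ha => ?_⟩
    rw [Q_one_eq r a hr ha]
    simp
  | succ g hg ih =>
    obtain ⟨E, η, hη, hE, hQ⟩ := ih
    choose p hp hpd using pf_dvd
    -- the polynomial of Cs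
    set Cp : Polynomial ℝ := 4 * ∑ i ∈ Icc 1 g, E i * (p i).comp (X ^ 2) +
      C (4 * η) * (ps g).comp (X ^ 2) with hCp
    have hCs : ∀ r : ℕ, 1 ≤ r → Cs g r = Cp.eval (r : ℝ) := by
      intro r hr
      have hr' : (r : ℝ) ≠ 0 := by
        have : r ≠ 0 := by omega
        exact_mod_cast this
      have h1 := Q_next g r (fun i => (E i).eval (r : ℝ)) η hg (hQ r hr) r le_rfl
      rw [Q_self _ _ hr, ph_one] at h1
      have e1 : ∀ i, ph (i + 1) (r : ℝ) = (r : ℝ) ^ 2 * ((p i).comp (X ^ 2)).eval (r : ℝ) := by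
        intro i
        unfold ph
        rw [hp i]
        simp [eval_comp]
      have e2 : si g (r : ℝ) = r * ((ps g).comp (X ^ 2)).eval (r : ℝ) := by
        unfold si
        simp [eval_comp]
      have e3 : ∑ i ∈ Icc 1 g, (E i).eval (r : ℝ) * ph (i + 1) (r : ℝ) =
          (r : ℝ) ^ 2 * ∑ i ∈ Icc 1 g, (E i * (p i).comp (X ^ 2)).eval (r : ℝ) := by
        rw [Finset.mul_sum]
        refine Finset.sum_congr rfl fun i _ => ?_
        rw [e1, eval_mul]; ring
      rw [e3, e2] at h1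
      have h2 : (r : ℝ) ^ 2 * Cs g r = (r : ℝ) ^ 2 * Cp.eval (r : ℝ) := by
        rw [hCp]
        simp only [eval_add, eval_mul, eval_C, eval_finsetSum, eval_ofNat]
        simp only [eval_mul] at h1
        linear_combination -h1
      exact mul_left_cancel₀ (pow_ne_zero 2 hr') h2
    have hdc : ∀ (q : Polynomial ℝ) (m : ℕ), q.natDegree ≤ m → (q.comp (X ^ 2)).natDegree ≤ 2 * m := by
      intro q m hq
      refine natDegree_comp_le.trans ?_
      rw [natDegree_X_pow]
      omega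
    have hCpd : Cp.natDegree ≤ 2 * g := by
      rw [hCp]
      refine natDegree_add_le_of_degree_le ?_ ?_
      · refine (natDegree_mul_le).trans ?_
        have h4 : (4 : Polynomial ℝ).natDegree = 0 := natDegree_ofNat 4
        rw [h4, zero_add]
        refine natDegree_sum_le_of_forall_le _ _ fun i hi => ?_
        refine natDegree_mul_le.trans ?_
        have h5 := hE i hi
        have h6 := hdc (p i) i (hpd i)
        rw [mem_Icc] at hi
        omega
      · exact (natDegree_C_mul_le _ _).trans (hdc _ _ (ps_deg g))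
    refine ⟨fun i => if i = 1 then C 2 * Cp else C (-4) * E (i - 1), -4 * η, by
      simpa using hη, ?_, ?_⟩
    · intro i hi
      rw [mem_Icc] at hi
      dsimp only
      split_ifs with h1
      · refine (natDegree_C_mul_le _ _).trans ?_
        omega
      · refine (natDegree_C_mul_le _ _).trans ?_
        have := hE (i - 1) (by rw [mem_Icc]; omega)
        omega
    · intro r hr a ha
      rw [Q_next g r (fun i => (E i).eval (r : ℝ)) η hg (hQ r hr) a ha, hCs r hr]
      have e1 : ∑ i ∈ Icc 1 (g + 1), (if i = 1 then C 2 * Cp else C (-4) * E (i - 1)).eval (r : ℝ) *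
          ph i a = 2 * Cp.eval (r : ℝ) * ph 1 a + ∑ i ∈ Icc 1 g, (-4) * ((E i).eval (r : ℝ) * ph (i + 1) a) := by
        have h7 : Icc 1 (g + 1) = insert 1 ((Icc 1 g).image (fun i => i + 1)) := by
          ext x
          simp only [mem_Icc, mem_insert, mem_image]
          constructor
          · intro hx
            by_cases h8 : x = 1
            · exact Or.inl h8
            · exact Or.inr ⟨x - 1, by omega, by omega⟩
          · rintro (h8 | ⟨y, hy, rfl⟩)
            · omega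
            · omega
        rw [h7, Finset.sum_insert, Finset.sum_image]
        · congr 1
          · simp
          · refine Finset.sum_congr rfl fun i hi => ?_
            rw [mem_Icc] at hi
            rw [if_neg (by omega : ¬ i + 1 = 1)]
            simp only [Nat.add_sub_cancel, eval_mul, eval_C]
            ring
        · intro x _ y _ hxy
          simpa using hxy
        · simp only [mem_image, mem_Icc, not_exists, not_and]
          intro x hx h9
          omega
      rw [e1, ← Finset.mul_sum]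
      simp only [Nat.add_sub_cancel]
      ring

theorem qs_holds : S_QS := by
  intro g hg
  obtain ⟨E, η, hη, hE, hQ⟩ := structure_ind g hg
  refine ⟨fun j => ∑ i ∈ Icc 1 g, E i * C ((pf i).coeff j), fun j => η * (ps (g - 1)).coeff (j - 1),
    ?_, mul_ne_zero hη (ps_coeff (g - 1)), ?_⟩
  · intro j hj
    refine natDegree_sum_le_of_forall_le _ _ fun i hi => ?_
    rcases lt_or_ge i j with h | h
    · rw [coeff_eq_zero_of_natDegree_lt (lt_of_le_of_lt (pf_deg i) h)]
      simp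
    · refine (natDegree_mul_C_le _ _).trans ?_
      have := hE i hi
      omega
  · intro r a hr ha
    rw [hQ r hr a ha]
    congr 1
    · -- even part
      have h1 : ∀ i ∈ Icc 1 g, ph i (a : ℝ) = ∑ j ∈ Icc 1 g, (pf i).coeff j * (a : ℝ) ^ (2 * j) := by
        intro i hi
        rw [mem_Icc] at hi
        unfold ph
        rw [eval_eq_sum_range' (lt_of_le_of_lt (pf_deg i) (by omega : i < g + 1))]
        have h2 : range (g + 1) = insert 0 (Icc 1 g) := by
          ext x; simp only [mem_range, mem_insert, mem_Icc]; omega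
        rw [h2, Finset.sum_insert (by simp)]
        obtain ⟨k, rfl⟩ : ∃ k, i = k + 1 := ⟨i - 1, by omega⟩
        obtain ⟨p, hp, -⟩ := pf_dvd k
        have h3 : (pf (k + 1)).coeff 0 = 0 := by rw [hp]; simp
        rw [h3, zero_mul, zero_add]
        refine Finset.sum_congr rfl fun j _ => ?_
        rw [← pow_mul]
      rw [Finset.sum_congr rfl fun i hi => by rw [h1 i hi]]
      simp only [eval_finsetSum, eval_mul, eval_C, Finset.sum_mul, Finset.mul_sum]
      rw [Finset.sum_comm]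
      refine Finset.sum_congr rfl fun j _ => Finset.sum_congr rfl fun i _ => ?_
      ring
    · unfold si
      rw [eval_eq_sum_range' (lt_of_le_of_lt (ps_deg (g - 1)) (by omega : g - 1 < g))]
      have h2 : Icc 1 g = (range g).image (fun j => j + 1) := by
        ext x
        simp only [mem_range, mem_image, mem_Icc]
        constructor
        · intro hx; exact ⟨x - 1, by omega, by omega⟩
        · rintro ⟨y, hy, rfl⟩; omega
      rw [h2, Finset.sum_image (by intro x _ y _ h; simpa using h), Finset.mul_sum, Finset.mul_sum,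
        Finset.mul_sum]
      refine Finset.sum_congr rfl fun j _ => ?_
      dsimp only
      rw [← pow_mul, Nat.add_sub_cancel, show 2 * (j + 1) - 1 = 2 * j + 1 by omega, pow_succ]
      ring

end H562BP

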