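import Mathlib
import Pool.Agent.H562.BP.Stm
import Pool.Agent.H562.BP.QS
import Pool.Agent.H562.BP.AS
import Pool.Agent.H787.BP562.Z
import Pool.Agent.H113.BP562.PS
import Pool.Agent.H268.BP562.NE
import Pool.Agent.H263.BP562.LA

set_option autoImplicit false

open Finset Filter Polynomial

namespace H562BP

lemma A_symm (g₁ g₂ r : ℕ) : A g₁ g₂ r = A g₂ g₁ r := by
  unfold A
  rw [Finset.sum_comm]
  refine Finset.sum_congr rfl fun a _ => Finset.sum_congr rfl fun b _ => ?_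
  rw [mul_comm (b : ℝ) (a : ℝ), mul_comm (Real.sin (Real.pi * b / r) ^ (2 * g₁))]

lemma A_lower (g₁ g₂ r : ℕ) (h₁ : 1 ≤ g₁) (h₂ : 1 ≤ g₂) (hr : 2 ≤ r) :
    ((r : ℝ) / Real.pi) ^ (2 * g₁ + 2 * g₂ - 2) ≤ A g₁ g₂ r := by
  have hr0 : (0 : ℝ) < r := by
    have : 0 < r := by omega
    exact_mod_cast this
  have hmem : (1 : ℕ) ∈ Ico 1 r := mem_Ico.mpr ⟨le_rfl, by omega⟩
  have hs := sin_pos hmem
  have hsle : Real.sin (Real.pi * ((1 : ℕ) : ℝ) / r) ≤ Real.pi / r := by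
    rw [Nat.cast_one, mul_one]
    exact Real.sin_le (by positivity)
  have hnn : ∀ a ∈ Ico 1 r, ∀ b ∈ Ico 1 r, 0 ≤ Real.sin (Real.pi * ((a : ℝ) * b) / r) ^ 2 /
      (Real.sin (Real.pi * a / r) ^ (2 * g₁) * Real.sin (Real.pi * b / r) ^ (2 * g₂)) := by
    intro a ha b hb
    have := sin_pos ha
    have := sin_pos hb
    positivity
  have h1 : Real.sin (Real.pi * (((1 : ℕ) : ℝ) * ((1 : ℕ) : ℝ)) / r) ^ 2 /
      (Real.sin (Real.pi * ((1 : ℕ) : ℝ) / r) ^ (2 * g₁) * Real.sin (Real.pi * ((1 : ℕ) : ℝ) / r) ^ (2 * g₂)) ≤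
      A g₁ g₂ r := by
    unfold A
    refine le_trans ?_ (Finset.single_le_sum (f := fun a : ℕ => ∑ b ∈ Ico 1 r,
      Real.sin (Real.pi * ((a : ℝ) * b) / r) ^ 2 /
      (Real.sin (Real.pi * a / r) ^ (2 * g₁) * Real.sin (Real.pi * b / r) ^ (2 * g₂)))
      (fun a ha => Finset.sum_nonneg (hnn a ha)) hmem)
    exact Finset.single_le_sum (f := fun b : ℕ => Real.sin (Real.pi * (((1 : ℕ) : ℝ) * b) / r) ^ 2 /
      (Real.sin (Real.pi * ((1 : ℕ) : ℝ) / r) ^ (2 * g₁) * Real.sin (Real.pi * b / r) ^ (2 * g₂)))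
      (hnn 1 hmem) hmem
  refine le_trans ?_ h1
  set s := Real.sin (Real.pi * ((1 : ℕ) : ℝ) / r) with hsdef
  have e1 : Real.sin (Real.pi * (((1 : ℕ) : ℝ) * ((1 : ℕ) : ℝ)) / r) = s := by
    rw [hsdef]; norm_num
  rw [e1]
  have e2 : s ^ 2 / (s ^ (2 * g₁) * s ^ (2 * g₂)) = (1 / s) ^ (2 * g₁ + 2 * g₂ - 2) := by
    rw [← pow_add, one_div, inv_pow, div_eq_iff (by positivity), ← div_eq_inv_mul, eq_div_iff (by positivity),
      ← pow_add]
    congr 1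
    omega
  rw [e2]
  refine pow_le_pow_left₀ (by positivity) ?_ _
  rw [div_le_div_iff₀ Real.pi_pos hs, one_mul]
  rw [le_div_iff₀ hr0] at hsle
  linarith

lemma deg_gt (f : ℕ → ℝ) (P : Polynomial ℝ) (c K δ : ℝ) (M D : ℕ) (hδ : 0 < δ) (hMD : M + 1 ≤ D)
    (h : ∀ r : ℕ, 1 ≤ r → |f r - (P.eval (r : ℝ) + c * ((r : ℝ) ^ M * Real.log r))| ≤ K * (r : ℝ) ^ M)
    (hlow : ∀ r : ℕ, 2 ≤ r → δ * (r : ℝ) ^ D ≤ f r) : M < P.natDegree := by
  by_contra hcon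
  push Not at hcon
  obtain ⟨KP, hKP0, hKP⟩ := poly_bound P M hcon
  have hlog : ∀ᶠ r : ℕ in atTop, |c| * Real.log r ≤ δ / 4 * r := by
    have h1 : Tendsto (fun x : ℝ => Real.log x / x) atTop (nhds 0) := by
      have := Real.isLittleO_log_id_atTop.tendsto_div_nhds_zero
      simpa using this
    have h2 := h1.comp tendsto_natCast_atTop_atTop
    have h3 : ∀ᶠ r : ℕ in atTop, Real.log r / r < δ / (4 * (|c| + 1)) :=
      h2.eventually (gt_mem_nhds (by positivity))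
    filter_upwards [h3, eventually_ge_atTop 1] with r hr hr1
    have hr0 : (0 : ℝ) < r := by exact_mod_cast hr1
    rw [div_lt_div_iff₀ hr0 (by positivity)] at hr
    have hl : 0 ≤ Real.log r := Real.log_nonneg (by exact_mod_cast hr1)
    nlinarith [abs_nonneg c]
  have hbig : ∀ᶠ r : ℕ in atTop, KP + |K| + 1 ≤ δ / 4 * r := by
    have h1 : Tendsto (fun r : ℕ => δ / 4 * (r : ℝ)) atTop atTop :=
      tendsto_natCast_atTop_atTop.const_mul_atTop (by positivity)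
    exact h1.eventually (eventually_ge_atTop _)
  obtain ⟨r, hr1, hr2, hr3⟩ := (hlog.and (hbig.and (eventually_ge_atTop 2))).exists
  have hr' : (1 : ℝ) ≤ r := by
    have : 1 ≤ r := by omega
    exact_mod_cast this
  have hr0 : (0 : ℝ) < r := by linarith
  have hp : (0 : ℝ) < (r : ℝ) ^ M := by positivity
  have h1 := h r (by omega)
  have h2 := hlow r hr3
  have h3 := hKP r (by omega)
  have h4 : (r : ℝ) ^ (M + 1) ≤ (r : ℝ) ^ D := pow_le_pow_right₀ hr' hMD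
  have h5 := (abs_le.mp h1).2
  have h6 := (abs_le.mp h3).2
  have h7 : K * (r : ℝ) ^ M ≤ |K| * (r : ℝ) ^ M := mul_le_mul_of_nonneg_right (le_abs_self K) hp.le
  have hl : 0 ≤ Real.log r := Real.log_nonneg hr'
  have h8 : c * ((r : ℝ) ^ M * Real.log r) ≤ |c| * Real.log r * (r : ℝ) ^ M := by
    have : c * ((r : ℝ) ^ M * Real.log r) ≤ |c| * ((r : ℝ) ^ M * Real.log r) :=
      mul_le_mul_of_nonneg_right (le_abs_self c) (by positivity)
    linarith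
  have h9 : |c| * Real.log r * (r : ℝ) ^ M ≤ δ / 4 * r * (r : ℝ) ^ M :=
    mul_le_mul_of_nonneg_right hr1 hp.le
  have h10 : (KP + |K| + 1) * (r : ℝ) ^ M ≤ δ / 4 * r * (r : ℝ) ^ M :=
    mul_le_mul_of_nonneg_right hr2 hp.le
  have h11 : δ * (r : ℝ) ^ (M + 1) ≤ f r := (mul_le_mul_of_nonneg_left h4 hδ.le).trans h2
  have h12 : δ * (r : ℝ) ^ (M + 1) = δ * r * (r : ℝ) ^ M := by ring
  have h13 : 0 < δ * r * (r : ℝ) ^ M := by positivity
  nlinarith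

theorem main (g₁ g₂ : ℕ) (h₁ : 1 ≤ g₁) (h₂ : 1 ≤ g₂) :
    (∃ (P : Polynomial ℝ) (c K : ℝ), c ≠ 0 ∧
      (2 ≤ max g₁ g₂ → g₁ + g₂ + 2 * min g₁ g₂ < P.natDegree) ∧
      ∀ r : ℕ, 1 ≤ r → ‖(bp g₁ g₂).Z 2 r - ((P.eval (r : ℝ) +
        c * ((r : ℝ) ^ (g₁ + g₂ + 2 * min g₁ g₂) * Real.log r) : ℝ) : ℂ)‖ ≤
          K * (r : ℝ) ^ (g₁ + g₂ + 2 * min g₁ g₂)) ∧
    ∀ ω : ℕ → ℂ, (∀ k, ‖ω k‖ = 1) →
      ¬ H524R3.HasExpansion 2 (fun k => ω k * (bp g₁ g₂).Z 2 (k + 2)) := by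
  have hZ := H787BP562.z_holds
  have hAS := as_of Pool.Agent.H113.BP562.ps_holds Pool.Agent.H263.BP562.la_holds qs_holds
  have hA : ∃ (P : Polynomial ℝ) (c K : ℝ), c ≠ 0 ∧ ∀ r : ℕ, 1 ≤ r →
      |A g₁ g₂ r - (P.eval (r : ℝ) + c * ((r : ℝ) ^ (2 * min g₁ g₂ + 1) * Real.log r))| ≤
        K * (r : ℝ) ^ (2 * min g₁ g₂ + 1) := by
    rcases le_total g₂ g₁ with h | h
    · rw [min_eq_right h]
      exact hAS g₂ g₁ h₂ h
    · rw [min_eq_left h]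
      obtain ⟨P, c, K, hc, hh⟩ := hAS g₁ g₂ h₁ h
      refine ⟨P, c, K, hc, fun r hr => ?_⟩
      rw [A_symm]; exact hh r hr
  obtain ⟨P, c, K, hc, hP⟩ := hA
  set κ := g₁ + g₂ - 1 with hκ
  set M := 2 * min g₁ g₂ + 1 with hM
  have hE : g₁ + g₂ + 2 * min g₁ g₂ = κ + M := by omega
  constructor
  · refine ⟨C ((1 / 2 : ℝ) ^ κ) * X ^ κ * P, (1 / 2 : ℝ) ^ κ * c, (1 / 2 : ℝ) ^ κ * K, by positivity, ?_, ?_⟩
    · intro hmax
      have hdeg : M < P.natDegree := by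
        refine deg_gt (A g₁ g₂) P c K ((1 / Real.pi) ^ (2 * g₁ + 2 * g₂ - 2)) M (2 * g₁ + 2 * g₂ - 2)
          (by positivity) ?_ hP ?_
        · omega
        · intro r hr
          have := A_lower g₁ g₂ r h₁ h₂ hr
          rw [div_eq_mul_one_div, mul_pow] at this
          rw [mul_comm]; exact this
      have hP0 : P ≠ 0 := by
        rintro rfl
        simp at hdeg
      rw [hE, mul_assoc, natDegree_C_mul (by positivity), natDegree_mul (pow_ne_zero _ X_ne_zero) hP0,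
        natDegree_X_pow]
      omega
    · intro r hr
      have hr0 : (0 : ℝ) < r := by exact_mod_cast hr
      rw [hZ g₁ g₂ r h₁ h₂ hr, ← Complex.ofReal_sub, Complex.norm_real, Real.norm_eq_abs, hE]
      have e1 : ((r : ℝ) / 2) ^ (g₁ + g₂ - 1) * A g₁ g₂ r -
          ((C ((1 / 2 : ℝ) ^ κ) * X ^ κ * P).eval (r : ℝ) +
            (1 / 2 : ℝ) ^ κ * c * ((r : ℝ) ^ (κ + M) * Real.log r)) =
          ((1 / 2 : ℝ) ^ κ * (r : ℝ) ^ κ) *
            (A g₁ g₂ r - (P.eval (r : ℝ) + c * ((r : ℝ) ^ M * Real.log r))) := by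
        rw [← hκ]
        simp only [eval_mul, eval_C, eval_pow, eval_X]
        rw [div_pow, pow_add, one_div, inv_pow]
        ring
      rw [e1, abs_mul, abs_of_nonneg (by positivity : (0 : ℝ) ≤ (1 / 2 : ℝ) ^ κ * (r : ℝ) ^ κ)]
      refine (mul_le_mul_of_nonneg_left (hP r hr) (by positivity)).trans (le_of_eq ?_)
      rw [pow_add]; ring
  · intro ω hω
    have h3 := Pool.Agent.H268.BP562.ne_holds κ M P c K (fun r => ((r : ℝ) / 2) ^ κ * A g₁ g₂ r) hc ?_ ω hω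
    · have h4 : (fun k : ℕ => ω k * (bp g₁ g₂).Z 2 (k + 2)) =
          (fun k : ℕ => ω k * ((((((k + 2 : ℕ) : ℝ) / 2) ^ κ * A g₁ g₂ (k + 2) : ℝ)) : ℂ)) := by
        funext k
        rw [hZ g₁ g₂ (k + 2) h₁ h₂ (by omega)]
      rw [h4]
      exact h3
    · intro r hr
      have hr0 : (0 : ℝ) < r := by exact_mod_cast hr
      have e1 : ((r : ℝ) / 2) ^ κ * A g₁ g₂ r - ((r : ℝ) / 2) ^ κ *
          (P.eval (r : ℝ) + c * ((r : ℝ) ^ M * Real.log r)) = ((r : ℝ) / 2) ^ κ *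
          (A g₁ g₂ r - (P.eval (r : ℝ) + c * ((r : ℝ) ^ M * Real.log r))) := by ring
      show |((r : ℝ) / 2) ^ κ * A g₁ g₂ r - _| ≤ _
      rw [e1, abs_mul, abs_of_nonneg (by positivity : (0 : ℝ) ≤ ((r : ℝ) / 2) ^ κ)]
      have h5 : ((r : ℝ) / 2) ^ κ ≤ (r : ℝ) ^ κ := pow_le_pow_left₀ (by positivity) (by linarith) _
      have h6 := hP r hr
      have h7 : 0 ≤ K * (r : ℝ) ^ M := (abs_nonneg _).trans h6
      calc ((r : ℝ) / 2) ^ κ * |A g₁ g₂ r - (P.eval (r : ℝ) + c * ((r : ℝ) ^ M * Real.log r))| ≤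
          (r : ℝ) ^ κ * (K * (r : ℝ) ^ M) := mul_le_mul h5 h6 (abs_nonneg _) (by positivity)
        _ = K * ((r : ℝ) ^ κ * (r : ℝ) ^ M) := by ring

end H562BP
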