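import Mathlib
import Pool.Graph.R_seed8.H524R3.ExpDefs
import Pool.Graph.R_seed8.W719.AEC.Defs
import Pool.Agent.H562.BP.Stm
import Pool.Agent.H562.BP.Main

/-!
# The asymptotic expansion conjecture for SU(2) fails below the leading order

For all genera g₁, g₂ ≥ 1 let M(g₁, g₂) be the closed oriented graph manifold of the plumbing graph with two
vertices of genus g₁ and g₂ and Euler number 0, joined by two edges of opposite signs. (Topologically this is
the mapping torus of the bounding pair map of type (g₁, g₂) on the closed oriented surface of genus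
g₁ + g₂ + 1; this remark is not used.) The level k SU(2) invariants of M(g₁, g₂) are a polynomial in r = k + 2
plus c r^E log r plus O(r^E) with c ≠ 0 and E = g₁ + g₂ + 2 min (g₁, g₂), so they have no asymptotic expansion
in powers of r^(1/2) with oscillating phases. If g₁ ≥ 2 or g₂ ≥ 2, the degree of the polynomial is larger than
E, so the leading term is a pure power of r and the failure is in a lower order term.
-/

set_option autoImplicit false

open H524R3 (HasExpansion)

namespace Pool.Agent.H562.BP.Variant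

/-- For all g₁, g₂ ≥ 1, with E = g₁ + g₂ + 2 min (g₁, g₂) and M the closed graph manifold of
`H562BP.bp g₁ g₂`:
(1) there are a real polynomial P and a real number c ≠ 0 with Z_k(M) = P(r) + c r^E log r + O(r^E), r = k + 2,
and the degree of P is larger than E if g₁ ≥ 2 or g₂ ≥ 2;
(2) for no choice of phases ω k of absolute value 1 (in particular in no 2-framing of M) does the sequence of
the level k SU(2) invariants ω k * Z_k(M) have an asymptotic expansion
∑_j exp (2 π i r c_j) r^(d_j) b_j (1 + ∑_l a_{j,l} r^(-l/2)), with any finite family of real phases c_j and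
real exponents d_j. -/
theorem result (g₁ g₂ : ℕ) (h₁ : 1 ≤ g₁) (h₂ : 1 ≤ g₂) :
    (∃ (P : Polynomial ℝ) (c K : ℝ), c ≠ 0 ∧
      (2 ≤ max g₁ g₂ → g₁ + g₂ + 2 * min g₁ g₂ < P.natDegree) ∧
      ∀ r : ℕ, 1 ≤ r → ‖(H562BP.bp g₁ g₂).Z 2 r - ((P.eval (r : ℝ) +
        c * ((r : ℝ) ^ (g₁ + g₂ + 2 * min g₁ g₂) * Real.log r) : ℝ) : ℂ)‖ ≤
          K * (r : ℝ) ^ (g₁ + g₂ + 2 * min g₁ g₂)) ∧
    ∀ ω : ℕ → ℂ, (∀ k, ‖ω k‖ = 1) →
      ¬ HasExpansion 2 (fun k => ω k * (H562BP.bp g₁ g₂).Z 2 (k + 2)) :=
  H562BP.main g₁ g₂ h₁ h₂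

end Pool.Agent.H562.BP.Variant
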